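import Pool.Agent.W277.UH.L3

/-!
# Project CH: the jacobian of a homogeneous map
-/

set_option autoImplicit false

namespace Pool.Agent.Y708.CH

open Pool.Agent.W277.UG Pool.Agent.W277.UH Finset Polynomial

universe u

section alg

variable {Ω : Type u} [NormedField Ω]

/-- `d p - x p'` -/
noncomputable def tl (d : ℕ) (p : Polynomial Ω) : Polynomial Ω := C (d : Ω) * p - X * derivative p

lemma sum1 (d : ℕ) (hd : 1 ≤ d) (p : Polynomial Ω) (Z : Ω × Ω) :
    ∑ i ∈ range (d + 1), p.coeff i * ((i : Ω) * Z.1 ^ (i - 1)) * Z.2 ^ (d - i) =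
      hev (d - 1) (derivative p) Z := by
  unfold hev
  rw [Nat.sub_add_cancel hd, Finset.sum_range_succ']
  simp only [Nat.cast_zero, zero_mul, mul_zero, add_zero]
  refine Finset.sum_congr rfl fun i _ => ?_
  rw [coeff_derivative, Nat.add_sub_cancel]
  have : d - 1 - i = d - (i + 1) := by omega
  rw [this]
  push_cast
  ring

lemma tl_coeff (d : ℕ) (p : Polynomial Ω) (i : ℕ) (hi : i ≤ d) :
    (tl d p).coeff i = ((d - i : ℕ) : Ω) * p.coeff i := by
  unfold tl
  rw [coeff_sub, coeff_C_mul, Nat.cast_sub hi]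
  cases i with
  | zero => simp
  | succ j =>
    rw [coeff_X_mul, coeff_derivative]
    push_cast
    ring

lemma sum2 (d : ℕ) (hd : 1 ≤ d) (p : Polynomial Ω) (Z : Ω × Ω) :
    ∑ i ∈ range (d + 1), p.coeff i * Z.1 ^ i * (((d - i : ℕ) : Ω) * Z.2 ^ (d - i - 1)) =
      hev (d - 1) (tl d p) Z := by
  unfold hev
  rw [Nat.sub_add_cancel hd, Finset.sum_range_succ]
  simp only [Nat.sub_self, Nat.cast_zero, zero_mul, mul_zero, add_zero]
  refine Finset.sum_congr rfl fun i hi => ?_
  rw [Finset.mem_range] at hi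
  rw [tl_coeff d p i hi.le]
  have : d - 1 - i = d - i - 1 := by omega
  rw [this]
  ring

/-- the form on a line -/
noncomputable def RR (d : ℕ) (p : Polynomial Ω) (Z V : Ω × Ω) : Polynomial Ω :=
  ∑ i ∈ range (d + 1), C (p.coeff i) * (C Z.1 + C V.1 * X) ^ i * (C Z.2 + C V.2 * X) ^ (d - i)

lemma RR_eval (d : ℕ) (p : Polynomial Ω) (Z V : Ω × Ω) (e : Ω) :
    (RR d p Z V).eval e = hev d p (Z + e • V) := by
  unfold RR hev
  rw [eval_finsetSum]
  refine Finset.sum_congr rfl fun i _ => ?_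
  simp only [eval_mul, eval_pow, eval_add, eval_C, eval_X, Prod.fst_add, Prod.snd_add,
    Prod.smul_fst, Prod.smul_snd, smul_eq_mul]
  rw [mul_comm V.1 e, mul_comm V.2 e]

lemma RR_der (d : ℕ) (hd : 1 ≤ d) (p : Polynomial Ω) (Z V : Ω × Ω) :
    (derivative (RR d p Z V)).eval 0 =
      V.1 * hev (d - 1) (derivative p) Z + V.2 * hev (d - 1) (tl d p) Z := by
  unfold RR
  rw [derivative_sum, eval_finsetSum, ← sum1 d hd, ← sum2 d hd, Finset.mul_sum, Finset.mul_sum,
    ← Finset.sum_add_distrib]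
  refine Finset.sum_congr rfl fun i _ => ?_
  simp only [derivative_mul, derivative_pow, derivative_add, derivative_C, derivative_X, zero_mul,
    zero_add, mul_one, mul_zero, eval_add, eval_mul, eval_pow, eval_C, eval_X, add_zero]
  ring

lemma euler [Infinite Ω] (d : ℕ) (hd : 1 ≤ d) (p : Polynomial Ω) (Z : Ω × Ω) :
    Z.1 * hev (d - 1) (derivative p) Z + Z.2 * hev (d - 1) (tl d p) Z = d * hev d p Z := by
  have h1 : RR d p Z Z = (1 + X) ^ d * C (hev d p Z) := by
    apply Polynomial.funext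
    intro e
    have h2 : Z + e • Z = (1 + e) • Z := by rw [add_smul, one_smul]
    rw [RR_eval, h2, hev_smul]
    simp
  rw [← RR_der d hd p Z Z, h1]
  simp [derivative_mul, derivative_pow]

/-- the jacobian -/
noncomputable def Jc (d : ℕ) (p q : Polynomial Ω) (Z : Ω × Ω) : Ω :=
  hev (d - 1) (derivative p) Z * hev (d - 1) (tl d q) Z -
    hev (d - 1) (tl d p) Z * hev (d - 1) (derivative q) Z

lemma jac_id [Infinite Ω] (d : ℕ) (hd : 1 ≤ d) (p q : Polynomial Ω) (Z V : Ω × Ω) :
    (d : Ω) * ((V.1 * hev (d - 1) (derivative p) Z + V.2 * hev (d - 1) (tl d p) Z) * hev d q Z -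
      (V.1 * hev (d - 1) (derivative q) Z + V.2 * hev (d - 1) (tl d q) Z) * hev d p Z) =
    wd V Z * Jc d p q Z := by
  have h1 := euler d hd p Z
  have h2 := euler d hd q Z
  unfold Jc wd
  linear_combination (V.1 * hev (d - 1) (derivative q) Z + V.2 * hev (d - 1) (tl d q) Z) * h1 -
    (V.1 * hev (d - 1) (derivative p) Z + V.2 * hev (d - 1) (tl d p) Z) * h2

/-- the form on the line `(a, *)` -/
noncomputable def hP (n : ℕ) (r : Polynomial Ω) (a : Ω) : Polynomial Ω :=
  ∑ i ∈ range (n + 1), C (r.coeff i * a ^ i) * X ^ (n - i)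

lemma hP_eval (n : ℕ) (r : Polynomial Ω) (a b : Ω) : (hP n r a).eval b = hev n r (a, b) := by
  unfold hP hev
  rw [eval_finsetSum]
  refine Finset.sum_congr rfl fun i _ => ?_
  simp

lemma Jc_smul (d : ℕ) (p q : Polynomial Ω) (t : Ω) (Z : Ω × Ω) :
    Jc d p q (t • Z) = t ^ (2 * d - 2) * Jc d p q Z := by
  unfold Jc
  rw [hev_smul, hev_smul, hev_smul, hev_smul]
  have h1 : t ^ (2 * d - 2) = t ^ (d - 1) * t ^ (d - 1) := by
    rw [← pow_add]
    congr 1
    omega
  rw [h1]
  ring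

lemma Jc_crit [Infinite Ω] (d : ℕ) (hd : 1 ≤ d) (p q : Polynomial Ω) (hp : p.natDegree ≤ d)
    (hq : q.natDegree ≤ d) (Cr : Fin (2 * d - 2) → Ω × Ω)
    (hC : ∀ x : Ω, (derivative p * q - p * derivative q).eval x = ∏ i, wd ((x, 1) : Ω × Ω) (Cr i))
    (Z : Ω × Ω) : Jc d p q Z = d * ∏ i, wd Z (Cr i) := by
  have h1 : ∀ x : Ω, Jc d p q (x, 1) = d * ∏ i, wd ((x, 1) : Ω × Ω) (Cr i) := by
    intro x
    have e1 := euler d hd p (x, 1)
    have e2 := euler d hd q (x, 1)
    have f1 : hev (d - 1) (derivative p) (x, 1) = (derivative p).eval x :=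
      hev_one _ _ ((natDegree_derivative_le p).trans (by omega)) x
    have f2 : hev (d - 1) (derivative q) (x, 1) = (derivative q).eval x :=
      hev_one _ _ ((natDegree_derivative_le q).trans (by omega)) x
    rw [hev_one d p hp, f1] at e1
    rw [hev_one d q hq, f2] at e2
    rw [← hC]
    unfold Jc
    rw [f1, f2]
    simp only [eval_sub, eval_mul]
    linear_combination (derivative p).eval x * e2 - (derivative q).eval x * e1
  have h2 : ∀ Z : Ω × Ω, Z.2 ≠ 0 → Jc d p q Z = d * ∏ i, wd Z (Cr i) := by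
    intro Z hZ
    have e1 : Z = Z.2 • ((Z.1 / Z.2, 1) : Ω × Ω) := by
      ext
      · simp only [Prod.smul_fst, smul_eq_mul]
        field_simp
      · simp
    have e2 : ∏ i, wd (Z.2 • ((Z.1 / Z.2, 1) : Ω × Ω)) (Cr i) =
        Z.2 ^ (2 * d - 2) * ∏ i, wd ((Z.1 / Z.2, 1) : Ω × Ω) (Cr i) := by
      simp only [wd_smul_left]
      rw [Finset.prod_mul_distrib, Finset.prod_const, Finset.card_univ, Fintype.card_fin]
    rw [e1, Jc_smul, e2, h1]
    ring
  -- the points at infinity
  have h3 : ∀ a : Ω, hP (d - 1) (derivative p) a * hP (d - 1) (tl d q) a -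
      hP (d - 1) (tl d p) a * hP (d - 1) (derivative q) a =
      C (d : Ω) * ∏ i, (C (a * (Cr i).2) - X * C (Cr i).1) := by
    intro a
    apply mul_left_cancel₀ (X_ne_zero (R := Ω))
    apply Polynomial.funext
    intro b
    by_cases hb : b = 0
    · simp [hb]
    · have := h2 (a, b) hb
      unfold Jc wd at this
      simp only [eval_mul, eval_sub, eval_X, eval_C, eval_prod, hP_eval]
      rw [this]
  have h4 := congrArg (eval Z.2) (h3 Z.1)
  simp only [eval_mul, eval_sub, eval_X, eval_C, eval_prod, hP_eval] at h4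
  exact h4

end alg

section key

variable {Ω : Type u} [NormedField Ω]

lemma gm_add (A B X V : Ω × Ω) (e : Ω) : gm A B (X + e • V) = gm A B X + e • gm A B V := by
  unfold gm
  ext
  · simp only [Prod.fst_add, Prod.snd_add, Prod.smul_fst, Prod.smul_snd, smul_eq_mul]
    ring
  · simp only [Prod.fst_add, Prod.snd_add, Prod.smul_fst, Prod.smul_snd, smul_eq_mul]
    ring

/-- **The jacobian at a root.** -/
lemma key [Infinite Ω] (d : ℕ) (hd : 1 ≤ d) (hd0 : (d : Ω) ≠ 0) (p q : Polynomial Ω)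
    (hp : p.natDegree ≤ d) (hq : q.natDegree ≤ d) (Cr : Fin (2 * d - 2) → Ω × Ω)
    (hC : ∀ x : Ω, (derivative p * q - p * derivative q).eval x = ∏ i, wd ((x, 1) : Ω × Ω) (Cr i))
    (A B : Ω × Ω) (h : wd A B ≠ 0) (s : Ω) (F : Ω × Ω → Ω × Ω)
    (hF : ∀ X, F X = s • gi A B (bF d p q (gm A B X))) (Y : Ω × Ω) (c : Ω)
    (η : Fin d → Ω × Ω) (hr : ∀ Z, wd (F Z) Y = c * ∏ l, wd Z (η l)) (X : Ω × Ω) (hX : X ≠ 0)
    (t : Ω) (ht : F X = t • Y) (l₀ : Fin d) (u : Ω) (hu : X = u • η l₀) :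
    s ^ 2 * (∏ i, wd (gm A B X) (Cr i)) * u = t * c * ∏ l ∈ univ.erase l₀, wd X (η l) := by
  obtain ⟨V, hV⟩ : ∃ V : Ω × Ω, wd V X ≠ 0 := by
    by_cases h1 : X.1 = 0
    · refine ⟨(1, 0), ?_⟩
      unfold wd
      have h2 : X.2 ≠ 0 := fun h2 => hX (Prod.ext h1 h2)
      simpa using h2
    · refine ⟨(0, 1), ?_⟩
      unfold wd
      simpa using h1
  have hwl : wd X (η l₀) = 0 := by
    rw [hu, wd_smul_left, wd_self, mul_zero]
  -- the polynomial identity
  have hpoly : C (s ^ 2 * (wd A B)⁻¹) * (RR d p (gm A B X) (gm A B V) * C (hev d q (gm A B X)) -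
      RR d q (gm A B X) (gm A B V) * C (hev d p (gm A B X))) =
      Polynomial.X * (C (t * c * wd V (η l₀)) *
        ∏ l ∈ univ.erase l₀, (C (wd X (η l)) + Polynomial.X * C (wd V (η l)))) := by
    apply Polynomial.funext
    intro e
    have h1 : wd (F (X + e • V)) (F X) = t * (c * ∏ l, wd (X + e • V) (η l)) := by
      rw [ht, wd_smul_right, hr]
    have h2 : wd (F (X + e • V)) (F X) = s ^ 2 * (wd A B)⁻¹ *
        wd (bF d p q (gm A B X + e • gm A B V)) (bF d p q (gm A B X)) := by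
      rw [hF, hF, wd_smul_left, wd_smul_right, wd_gi h, gm_gi h, gm_add]
      ring
    rw [h1] at h2
    have h3 : ∏ l, wd (X + e • V) (η l) = e * wd V (η l₀) *
        ∏ l ∈ univ.erase l₀, (wd X (η l) + e * wd V (η l)) := by
      rw [← Finset.mul_prod_erase univ _ (mem_univ l₀), wd_add_left, wd_smul_left, hwl, zero_add]
      congr 1
      refine Finset.prod_congr rfl fun l _ => ?_
      rw [wd_add_left, wd_smul_left]
    rw [h3] at h2
    simp only [eval_mul, eval_sub, eval_C, eval_X, eval_prod, eval_add, RR_eval]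
    unfold wd bF at h2
    unfold wd
    simp only at h2
    linear_combination -h2
  have hder := congrArg (fun f : Polynomial Ω => (derivative f).eval 0) hpoly
  simp only [derivative_mul, derivative_sub, derivative_C, derivative_X, zero_mul, zero_add,
    mul_zero, add_zero, one_mul, eval_mul, eval_sub, eval_C, eval_X, eval_add, RR_der d hd,
    eval_prod] at hder
  have hj := jac_id d hd p q (gm A B X) (gm A B V)
  rw [Jc_crit d hd p q hp hq Cr hC, wd_gm] at hj
  have hj' : ((gm A B V).1 * hev (d - 1) (derivative p) (gm A B X) +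
      (gm A B V).2 * hev (d - 1) (tl d p) (gm A B X)) * hev d q (gm A B X) -
      ((gm A B V).1 * hev (d - 1) (derivative q) (gm A B X) +
      (gm A B V).2 * hev (d - 1) (tl d q) (gm A B X)) * hev d p (gm A B X) =
      wd A B * wd V X * ∏ i, wd (gm A B X) (Cr i) := by
    apply mul_left_cancel₀ hd0
    rw [hj]
    ring
  rw [hj'] at hder
  have hVu : wd V X = u * wd V (η l₀) := by
    conv_lhs => rw [hu]
    rw [wd_smul_right]
  have h5 : s ^ 2 * (wd A B)⁻¹ * (wd A B * wd V X * ∏ i, wd (gm A B X) (Cr i)) =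
      s ^ 2 * wd V X * ∏ i, wd (gm A B X) (Cr i) := by
    field_simp
  rw [h5] at hder
  have hVη : wd V (η l₀) ≠ 0 := by
    intro h6
    rw [hVu, h6, mul_zero] at hV
    exact hV rfl
  apply mul_left_cancel₀ hVη
  rw [hVu] at hder
  linear_combination hder

end key

end Pool.Agent.Y708.CH
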