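import Pool.Agent.Y706.CH.Stm
import Pool.Agent.Y708.CH.Alg

/-!
# Project CH, task JAC: the critical points and a lower bound for the Lyapunov exponent
-/

set_option autoImplicit false

namespace Pool.Agent.Y708.CH

open Pool.Agent.W277.UB Pool.Agent.W277.UG Pool.Agent.W277.UH Pool.Agent.Y706.CH Finset Polynomial
open Pool.Agent.Y706.BI (UV eqv fU hh G0 gg rt Av nrm nrm_spec rt_spec UV.ne)

universe u

section

variable {Ω : Type u} [NormedField Ω]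

lemma fU_spec (S : HS Ω) (X : UV Ω) :
    ∃ t : Ω, t ≠ 0 ∧ S.F X.1 = t • (fU S X).1 ∧ ‖t‖ = ‖S.F X.1‖ :=
  nrm_spec (S.F X.1) (S.nz X.1 X.ne)

lemma eqv_spec {X Y : UV Ω} (h : eqv X Y) : ∃ t : Ω, t ≠ 0 ∧ ‖t‖ = 1 ∧ X.1 = t • Y.1 := by
  obtain ⟨t, ht⟩ := (wd_zero_iff Y.ne).1 h
  have h1 : ‖t‖ = 1 := by
    have := congrArg norm ht
    rw [norm_smul, X.2, Y.2, mul_one] at this
    exact this.symm
  refine ⟨t, ?_, h1, ht⟩
  rintro rfl
  rw [norm_zero] at h1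
  exact zero_ne_one h1

lemma gi_ne {A B : Ω × Ω} (h : wd A B ≠ 0) {W : Ω × Ω} (hW : W ≠ 0) : gi A B W ≠ 0 := by
  intro h0
  apply hW
  rw [← gm_gi h W, h0]
  unfold gm
  simp

lemma le_gi {A B : Ω × Ω} (h : wd A B ≠ 0) (W : Ω × Ω) :
    ‖W‖ ≤ (‖A‖ + ‖B‖) * ‖gi A B W‖ := by
  conv_lhs => rw [← gm_gi h W]
  unfold gm
  refine (norm_add_le _ _).trans ?_
  rw [norm_smul, norm_smul]
  have h1 := norm_fst_le (gi A B W)
  have h2 := norm_snd_le (gi A B W)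
  have h3 := norm_nonneg A
  have h4 := norm_nonneg B
  nlinarith

lemma iter_smul (S : HS Ω) (t : Ω) (n : ℕ) (W : Ω × Ω) :
    S.F^[n] (t • W) = t ^ S.d ^ n • S.F^[n] W := by
  induction n generalizing W with
  | zero => simp
  | succ m ih =>
    rw [Function.iterate_succ_apply', ih, S.hom, Function.iterate_succ_apply', ← pow_mul,
      ← pow_succ]

lemma iter_ne (S : HS Ω) (n : ℕ) (W : Ω × Ω) (hW : W ≠ 0) : S.F^[n] W ≠ 0 := by
  induction n with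
  | zero => exact hW
  | succ m ih =>
    rw [Function.iterate_succ_apply']
    exact S.nz _ ih

/-- iterates of the conjugate -/
lemma conj_it (S : HS Ω) (A B : Ω × Ω) (h : wd A B ≠ 0) (s : Ω) (hs : s ≠ 0) (n : ℕ)
    (W : Ω × Ω) : (S.conj A B h s hs).F^[n] (gi A B W) =
      s ^ (∑ j ∈ range n, S.d ^ j) • gi A B (S.F^[n] W) := by
  induction n with
  | zero => simp
  | succ m ih =>
    rw [Function.iterate_succ_apply', ih, (S.conj A B h s hs).hom]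
    have h1 : (S.conj A B h s hs).F (gi A B (S.F^[m] W)) = s • gi A B (S.F (S.F^[m] W)) := by
      show s • gi A B (S.F (gm A B (gi A B (S.F^[m] W)))) = _
      rw [gm_gi h]
    have h2 : (S.conj A B h s hs).d = S.d := rfl
    rw [h1, Function.iterate_succ_apply', smul_smul, h2, ← pow_mul, ← pow_succ]
    congr 2
    rw [Finset.sum_range_succ', Finset.sum_mul]
    simp only [pow_zero, pow_succ]

end

section

variable {Ω : Type u} [NormedField Ω] [IsUltrametricDist Ω]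

/-- the comparison of the two Green functions -/
lemma lower (S : HS Ω) (hd : 2 ≤ S.d) (A B : Ω × Ω) (h : wd A B ≠ 0) (s : Ω) (hs : s ≠ 0)
    (M : ℝ) (hM : ∀ X : UV Ω, -M ≤ G0 (S.conj A B h s hs) X)
    (h4 : ∀ (n : ℕ) (X : UV Ω), Real.log ‖(S.conj A B h s hs).F^[n] X.1‖ =
      (S.d : ℝ) ^ n * G0 (S.conj A B h s hs) X -
        G0 (S.conj A B h s hs) ((fU (S.conj A B h s hs))^[n] X))
    (K : ℝ) (hK : ∀ X : Ω × Ω, X ≠ 0 → |Real.log ‖S.F X‖ - S.d * Real.log ‖X‖| ≤ K) (m : ℕ)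
    (W : Ω × Ω) (hW : W ≠ 0) (c : UV Ω) (τ : Ω) (hτ0 : τ ≠ 0) (hτ : gi A B W = τ • c.1) :
    (Real.log ‖S.F^[m] W‖ - K) / (S.d : ℝ) ^ m ≤
      G0 (S.conj A B h s hs) c + Real.log ‖τ‖ - Real.log ‖s‖ / ((S.d : ℝ) - 1) := by
  have hd2 : (2 : ℝ) ≤ S.d := by exact_mod_cast hd
  have hd1 : (0 : ℝ) < (S.d : ℝ) - 1 := by linarith
  have hK0 : 0 ≤ K := (abs_nonneg _).trans (hK W hW)
  have hK' : K / ((S.d : ℝ) - 1) ≤ K := div_le_self hK0 (by linarith)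
  have hK'0 : 0 ≤ K / ((S.d : ℝ) - 1) := div_nonneg hK0 hd1.le
  -- the sequence is almost increasing
  have hmono : ∀ n, (Real.log ‖S.F^[m] W‖ - K / ((S.d : ℝ) - 1)) / (S.d : ℝ) ^ m ≤
      (Real.log ‖S.F^[m + n] W‖ - K / ((S.d : ℝ) - 1)) / (S.d : ℝ) ^ (m + n) := by
    intro n
    induction n with
    | zero => exact le_refl _
    | succ n ih =>
      refine ih.trans ?_
      have h5 := (abs_le.1 (hK _ (iter_ne S (m + n) W hW))).1
      rw [← Function.iterate_succ_apply' (f := S.F)] at h5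
      have h6 : (S.d : ℝ) * (K / ((S.d : ℝ) - 1)) = K + K / ((S.d : ℝ) - 1) := by
        field_simp
        ring
      rw [← add_assoc, pow_succ, div_le_div_iff₀ (by positivity) (by positivity)]
      have hp : (0 : ℝ) < (S.d : ℝ) ^ (m + n) := by positivity
      have h7 : (Real.log ‖S.F^[m + n] W‖ - K / ((S.d : ℝ) - 1)) * S.d ≤
          Real.log ‖S.F^[m + n + 1] W‖ - K / ((S.d : ℝ) - 1) := by
        linarith
      nlinarith
  have hAB : 0 < ‖A‖ + ‖B‖ := by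
    have h5 := le_gi h W
    have h6 : 0 < ‖W‖ := norm_pos_iff.2 hW
    by_contra h7
    have h8 : (‖A‖ + ‖B‖) * ‖gi A B W‖ ≤ 0 :=
      mul_nonpos_of_nonpos_of_nonneg (not_lt.1 h7) (norm_nonneg _)
    linarith
  have hgeo : ∀ n : ℕ, (∑ j ∈ range n, (S.d : ℝ) ^ j) * ((S.d : ℝ) - 1) = (S.d : ℝ) ^ n - 1 :=
    fun n => geom_sum_mul _ n
  set b := (Real.log ‖S.F^[m] W‖ - K) / (S.d : ℝ) ^ m with hb
  have hfin : ∀ n ≥ m, b ≤ (G0 (S.conj A B h s hs) c + Real.log ‖τ‖ -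
      Real.log ‖s‖ / ((S.d : ℝ) - 1)) +
      (M + Real.log (‖A‖ + ‖B‖) + Real.log ‖s‖ / ((S.d : ℝ) - 1)) / (S.d : ℝ) ^ n := by
    intro n hn
    obtain ⟨k, rfl⟩ := Nat.exists_eq_add_of_le hn
    have hp : (0 : ℝ) < (S.d : ℝ) ^ (m + k) := by positivity
    have h5 := hmono k
    have h6 := conj_it S A B h s hs (m + k) W
    have hTd : (S.conj A B h s hs).d = S.d := rfl
    rw [hτ, iter_smul, hTd] at h6
    have h7 := congrArg (fun v : Ω × Ω => Real.log ‖v‖) h6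
    simp only [norm_smul, norm_pow] at h7
    have hZ : S.F^[m + k] W ≠ 0 := iter_ne S (m + k) W hW
    have hgZ : gi A B (S.F^[m + k] W) ≠ 0 := gi_ne h hZ
    have hFc : (S.conj A B h s hs).F^[m + k] c.1 ≠ 0 := iter_ne _ _ _ c.ne
    rw [Real.log_mul (pow_ne_zero _ (norm_ne_zero_iff.2 hτ0)) (norm_ne_zero_iff.2 hFc),
      Real.log_mul (pow_ne_zero _ (norm_ne_zero_iff.2 hs)) (norm_ne_zero_iff.2 hgZ),
      Real.log_pow, Real.log_pow, h4] at h7
    push_cast at h7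
    have h8 : Real.log ‖S.F^[m + k] W‖ ≤
        Real.log (‖A‖ + ‖B‖) + Real.log ‖gi A B (S.F^[m + k] W)‖ := by
      rw [← Real.log_mul hAB.ne' (norm_ne_zero_iff.2 hgZ)]
      exact Real.log_le_log (norm_pos_iff.2 hZ) (le_gi h _)
    have h9 := hM ((fU (S.conj A B h s hs))^[m + k] c)
    have h10 : b ≤ (Real.log ‖S.F^[m] W‖ - K / ((S.d : ℝ) - 1)) / (S.d : ℝ) ^ m :=
      div_le_div_of_nonneg_right (by linarith) (by positivity)
    have h11 : (∑ j ∈ range (m + k), (S.d : ℝ) ^ j) = ((S.d : ℝ) ^ (m + k) - 1) /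
        ((S.d : ℝ) - 1) := by
      rw [eq_div_iff hd1.ne']
      exact hgeo _
    rw [h11] at h7
    refine h10.trans (h5.trans ?_)
    rw [div_le_iff₀ hp, add_mul, div_mul_cancel₀ _ hp.ne']
    have h12 : ((S.d : ℝ) ^ (m + k) - 1) / ((S.d : ℝ) - 1) * Real.log ‖s‖ =
        Real.log ‖s‖ / ((S.d : ℝ) - 1) * (S.d : ℝ) ^ (m + k) -
          Real.log ‖s‖ / ((S.d : ℝ) - 1) := by
      ring
    rw [h12] at h7
    nlinarith
  have hlim : Filter.Tendsto (fun n : ℕ => (G0 (S.conj A B h s hs) c + Real.log ‖τ‖ -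
      Real.log ‖s‖ / ((S.d : ℝ) - 1)) +
      (M + Real.log (‖A‖ + ‖B‖) + Real.log ‖s‖ / ((S.d : ℝ) - 1)) / (S.d : ℝ) ^ n)
      Filter.atTop (nhds ((G0 (S.conj A B h s hs) c + Real.log ‖τ‖ -
      Real.log ‖s‖ / ((S.d : ℝ) - 1)) + 0)) := by
    refine Filter.Tendsto.add tendsto_const_nhds ?_
    exact Filter.Tendsto.const_div_atTop (tendsto_pow_atTop_atTop_of_one_lt (by linarith)) _
  rw [add_zero] at hlim
  exact ge_of_tendsto hlim (Filter.eventually_atTop.2 ⟨m, hfin⟩)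

end

/-- the critical points and a lower bound for the Lyapunov exponent -/
theorem t_JAC (hG : S_GRN2.{u}) : S_JAC.{u} := by
  intro Ω _ _ _ hn d hd p q hp hq hco S₀ hSF hSd Cr hCr A B h s hs hgs
  subst hSd
  obtain ⟨g0, g1, g2, g3, g4, g5, g6, g7, -, -⟩ := hG Ω hn (S₀.conj A B h s hs) hgs hd
  have hTd : (S₀.conj A B h s hs).d = S₀.d := rfl
  have hd2 : (2 : ℝ) ≤ S₀.d := by exact_mod_cast hd
  have hd1 : (0 : ℝ) < (S₀.d : ℝ) - 1 := by linarith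
  have hd0 : (S₀.d : ℝ) ≠ 0 := by linarith
  have hinf : Infinite Ω := IsAlgClosed.instInfinite
  have hdΩ : (S₀.d : Ω) ≠ 0 := by
    intro h0
    have h1 := hn S₀.d (by omega)
    rw [h0, norm_zero] at h1
    exact zero_ne_one h1
  have hgi : ∀ i, gi A B (Cr i) ≠ 0 := fun i => gi_ne h (hCr.1 i)
  have hex : ∀ i, ∃ (c : UV Ω) (τ : Ω), τ ≠ 0 ∧ gi A B (Cr i) = τ • c.1 := by
    intro i
    obtain ⟨τ, h1, h2, -⟩ := nrm_spec (gi A B (Cr i)) (hgi i)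
    exact ⟨_, τ, h1, h2⟩
  choose c τ hτ0 hτ using hex
  have hcast : ((2 * S₀.d - 2 : ℕ) : ℝ) = 2 * (S₀.d : ℝ) - 2 := by
    rw [Nat.cast_sub (by omega)]
    push_cast
    ring
  refine ⟨⟨c, ∑ i, (G0 (S₀.conj A B h s hs) (c i) + Real.log ‖τ i‖) +
    2 * (S₀.conj A B h s hs).Res / S₀.d + 2 * Real.log ‖s‖ +
    (2 * (S₀.d : ℝ) - 2) * Real.log ‖wd A B‖, ?_⟩, ?_⟩
  · intro X Y l₀ h1 h2 h3
    obtain ⟨t₁, ht₁, hTF, hnt₁⟩ := fU_spec (S₀.conj A B h s hs) X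
    obtain ⟨u₁, hu₁, hnu₁, hfu⟩ := eqv_spec h1
    obtain ⟨u, hu, hnu, hXu⟩ := eqv_spec h2
    obtain ⟨c₀, hrs⟩ : ∃ c₀, (S₀.conj A B h s hs).IsRS Y.1 c₀
      (fun l => (rt (S₀.conj A B h s hs) Y l).1) := ⟨_, rt_spec (S₀.conj A B h s hs) Y⟩
    have hkey : s ^ 2 * (∏ i, wd (gm A B X.1) (Cr i)) * u = t₁ * u₁ * c₀ *
        ∏ l ∈ univ.erase l₀, wd X.1 (rt (S₀.conj A B h s hs) Y l).1 := key S₀.d (by omega) hdΩ p q hp hq.le Cr hCr.2 A B h s
      (S₀.conj A B h s hs).F (fun Z => by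
        show s • gi A B (S₀.F (gm A B Z)) = _
        rw [hSF]) Y.1 c₀ (fun l => (rt (S₀.conj A B h s hs) Y l).1) hrs.2.2.1 X.1 X.ne
      (t₁ * u₁) (by rw [hTF, hfu, smul_smul]) l₀ u hXu
    have hn1 := congrArg norm hkey
    simp only [norm_mul, norm_pow, norm_prod, hnu, hnu₁, mul_one] at hn1
    rw [hnt₁] at hn1
    have hw : ∀ i, ‖wd (gm A B X.1) (Cr i)‖ = ‖wd A B‖ * (‖τ i‖ * ‖wd X.1 (c i).1‖) := by
      intro i
      rw [wd_gm_left h, hτ, wd_smul_right, norm_mul, norm_mul]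
    simp only [hw] at hn1
    have hc0 : ∀ i, ‖wd X.1 (c i).1‖ ≠ 0 := fun i => norm_ne_zero_iff.2 (h3 i)
    have hAB0 : ‖wd A B‖ ≠ 0 := norm_ne_zero_iff.2 h
    have hs0 : ‖s‖ ≠ 0 := norm_ne_zero_iff.2 hs
    have hτn : ∀ i, ‖τ i‖ ≠ 0 := fun i => norm_ne_zero_iff.2 (hτ0 i)
    have hl0 : ‖s‖ ^ 2 * ∏ i, ‖wd A B‖ * (‖τ i‖ * ‖wd X.1 (c i).1‖) ≠ 0 := by
      refine mul_ne_zero (pow_ne_zero _ hs0) (Finset.prod_ne_zero_iff.2 fun i _ => ?_)
      exact mul_ne_zero hAB0 (mul_ne_zero (hτn i) (hc0 i))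
    have hr0 := hl0
    rw [hn1] at hr0
    have hF0 : ‖(S₀.conj A B h s hs).F X.1‖ ≠ 0 := (mul_ne_zero_iff.1 (mul_ne_zero_iff.1 hr0).1).1
    have hc₀0 : ‖c₀‖ ≠ 0 := (mul_ne_zero_iff.1 (mul_ne_zero_iff.1 hr0).1).2
    have hroot : ∀ l ∈ univ.erase l₀, ‖wd X.1 (rt (S₀.conj A B h s hs) Y l).1‖ ≠ 0 :=
      Finset.prod_ne_zero_iff.1 (mul_ne_zero_iff.1 hr0).2
    refine ⟨fun l hl => norm_ne_zero_iff.1 (hroot l (Finset.mem_erase.2 ⟨hl, mem_univ l⟩)), ?_⟩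
    -- logarithms
    have hlog := congrArg Real.log hn1
    rw [Real.log_mul (pow_ne_zero _ hs0) (mul_ne_zero_iff.1 hl0).2, Real.log_pow,
      Real.log_prod (fun i _ => mul_ne_zero hAB0 (mul_ne_zero (hτn i) (hc0 i))),
      Real.log_mul (mul_ne_zero hF0 hc₀0) (mul_ne_zero_iff.1 hr0).2,
      Real.log_mul hF0 hc₀0, Real.log_prod hroot] at hlog
    have hs1 : ∑ i, Real.log (‖wd A B‖ * (‖τ i‖ * ‖wd X.1 (c i).1‖)) =
        (2 * (S₀.d : ℝ) - 2) * Real.log ‖wd A B‖ + ∑ i, Real.log ‖τ i‖ +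
          ∑ i, Real.log ‖wd X.1 (c i).1‖ := by
      have h5 : ∀ i, Real.log (‖wd A B‖ * (‖τ i‖ * ‖wd X.1 (c i).1‖)) =
          Real.log ‖wd A B‖ + Real.log ‖τ i‖ + Real.log ‖wd X.1 (c i).1‖ := by
        intro i
        rw [Real.log_mul hAB0 (mul_ne_zero (hτn i) (hc0 i)), Real.log_mul (hτn i) (hc0 i)]
        ring
      simp only [h5]
      rw [Finset.sum_add_distrib, Finset.sum_add_distrib, Finset.sum_const, Finset.card_univ,
        Fintype.card_fin, nsmul_eq_mul, hcast]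
    rw [hs1] at hlog
    -- the Green function at the roots
    have e4 : ∀ l, G0 (S₀.conj A B h s hs) (rt (S₀.conj A B h s hs) Y l) =
        (G0 (S₀.conj A B h s hs) Y + hh (S₀.conj A B h s hs) (rt (S₀.conj A B h s hs) Y l)) /
          S₀.d := by
      intro l
      have h5 := g3 (rt (S₀.conj A B h s hs) Y l)
      rw [(g5 _ _ (g7 Y l)).2.1, hTd] at h5
      rw [eq_div_iff hd0]
      linarith
    have e5 : ∑ l, -Real.log ‖(S₀.conj A B h s hs).F (rt (S₀.conj A B h s hs) Y l).1‖ =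
        (S₀.conj A B h s hs).Res + (S₀.d : ℝ) * Real.log ‖c₀‖ := HS.sum_log_F hrs
    have e6 : ∑ l, hh (S₀.conj A B h s hs) (rt (S₀.conj A B h s hs) Y l) =
        -((S₀.conj A B h s hs).Res + S₀.d * Real.log ‖c₀‖) := by
      rw [← e5, Finset.sum_neg_distrib, neg_neg]
      rfl
    have e7 : ∑ l, G0 (S₀.conj A B h s hs) (rt (S₀.conj A B h s hs) Y l) =
        G0 (S₀.conj A B h s hs) Y -
          ((S₀.conj A B h s hs).Res + S₀.d * Real.log ‖c₀‖) / S₀.d := by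
      simp_rw [e4]
      rw [← Finset.sum_div, Finset.sum_add_distrib, e6, Finset.sum_const, Finset.card_univ,
        Fintype.card_fin, nsmul_eq_mul, hTd]
      field_simp
      ring
    have e8 : G0 (S₀.conj A B h s hs) (rt (S₀.conj A B h s hs) Y l₀) =
        G0 (S₀.conj A B h s hs) X := ((g5 _ _ h2).2.1).symm
    have e9 : G0 (S₀.conj A B h s hs) Y =
        S₀.d * G0 (S₀.conj A B h s hs) X - hh (S₀.conj A B h s hs) X := by
      rw [← (g5 _ _ h1).2.1]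
      exact g3 X
    have e10 : ∑ l ∈ univ.erase l₀, G0 (S₀.conj A B h s hs) (rt (S₀.conj A B h s hs) Y l) =
        G0 (S₀.conj A B h s hs) Y -
          ((S₀.conj A B h s hs).Res + S₀.d * Real.log ‖c₀‖) / S₀.d -
          G0 (S₀.conj A B h s hs) X := by
      rw [← e7, ← e8, ← Finset.add_sum_erase univ _ (mem_univ l₀)]
      ring
    have hcard : ((univ.erase l₀).card : ℝ) = (S₀.d : ℝ) - 1 := by
      rw [Finset.card_erase_of_mem (mem_univ l₀), Finset.card_univ, Fintype.card_fin, hTd,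
        Nat.cast_sub (by omega)]
      simp
    have hTr : ((S₀.conj A B h s hs).d : ℝ) = (S₀.d : ℝ) := by rw [hTd]
    have hcastT : ((2 * (S₀.conj A B h s hs).d - 2 : ℕ) : ℝ) = 2 * (S₀.d : ℝ) - 2 := hcast
    unfold gg
    rw [Finset.sum_add_distrib, Finset.sum_add_distrib, Finset.sum_add_distrib, e10,
      Finset.sum_add_distrib, Finset.sum_add_distrib, Finset.sum_add_distrib,
      Finset.sum_add_distrib, Finset.sum_const, Finset.sum_const, Finset.sum_const,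
      Finset.sum_const, nsmul_eq_mul, nsmul_eq_mul, nsmul_eq_mul, nsmul_eq_mul, hcard,
      Finset.card_univ, Fintype.card_fin, Finset.sum_neg_distrib, Finset.sum_neg_distrib, e9,
      hTr, hcastT]
    have hhX : hh (S₀.conj A B h s hs) X = Real.log ‖(S₀.conj A B h s hs).F X.1‖ := rfl
    rw [← hhX] at hlog
    push_cast at hlog
    have k1 : ((S₀.d : ℝ) - 1) * ((S₀.conj A B h s hs).Res / (S₀.d * ((S₀.d : ℝ) - 1))) =
        (S₀.conj A B h s hs).Res / S₀.d := by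
      field_simp
    have k2 : (2 * (S₀.d : ℝ) - 2) * ((S₀.conj A B h s hs).Res / (S₀.d * ((S₀.d : ℝ) - 1))) =
        2 * (S₀.conj A B h s hs).Res / S₀.d := by
      field_simp
    have k3 : ((S₀.conj A B h s hs).Res + S₀.d * Real.log ‖c₀‖) / S₀.d =
        (S₀.conj A B h s hs).Res / S₀.d + Real.log ‖c₀‖ := by
      field_simp
    rw [k1, k2, k3]
    have hS1 : (∑ x : Fin (2 * (S₀.conj A B h s hs).d - 2), Real.log ‖wd X.1 (c x).1‖) =
        ∑ x : Fin (2 * S₀.d - 2), Real.log ‖wd X.1 (c x).1‖ := rfl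
    have hS2 : (∑ x : Fin (2 * (S₀.conj A B h s hs).d - 2), G0 (S₀.conj A B h s hs) (c x)) =
        ∑ x : Fin (2 * S₀.d - 2), G0 (S₀.conj A B h s hs) (c x) := rfl
    linear_combination hlog + hS1 - hS2
  · intro K hK m
    show _ ≤ ∑ i, (G0 (S₀.conj A B h s hs) (c i) + Real.log ‖τ i‖) +
      2 * (S₀.conj A B h s hs).Res / S₀.d + 2 * Real.log ‖s‖ +
      (2 * (S₀.d : ℝ) - 2) * Real.log ‖wd A B‖
    have h1 : ∀ i, (Real.log ‖S₀.F^[m] (Cr i)‖ - K) / (S₀.d : ℝ) ^ m ≤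
        G0 (S₀.conj A B h s hs) (c i) + Real.log ‖τ i‖ - Real.log ‖s‖ / ((S₀.d : ℝ) - 1) :=
      fun i => lower S₀ hd A B h s hs _ (fun X => (g2 X).1) g4 K hK m (Cr i) (hCr.1 i) (c i) (τ i)
        (hτ0 i) (hτ i)
    have h2 := Finset.sum_le_sum fun i (_ : i ∈ (univ : Finset (Fin (2 * S₀.d - 2)))) => h1 i
    rw [← Finset.sum_div, Finset.sum_sub_distrib, Finset.sum_sub_distrib, Finset.sum_const,
      Finset.sum_const, Finset.card_univ, Fintype.card_fin, nsmul_eq_mul, nsmul_eq_mul,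
      hcast] at h2
    have hR : (S₀.conj A B h s hs).Res = S₀.Res - (S₀.d * ((S₀.d : ℝ) - 1)) *
      Real.log ‖wd A B‖ - 2 * S₀.d * Real.log ‖s‖ := rfl
    have h3 : 2 * (S₀.conj A B h s hs).Res / S₀.d = 2 * S₀.Res / S₀.d -
        (2 * (S₀.d : ℝ) - 2) * Real.log ‖wd A B‖ - 4 * Real.log ‖s‖ := by
      rw [hR]
      field_simp
      ring
    have h4 : (2 * (S₀.d : ℝ) - 2) * (Real.log ‖s‖ / ((S₀.d : ℝ) - 1)) = 2 * Real.log ‖s‖ := by
      field_simp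
    rw [h4, sub_div] at h2
    rw [h3]
    linarith

end Pool.Agent.Y708.CH
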